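import Mathlib
import Pool.Agent.Y263.GF.Alg
import Pool.Agent.TH310.Cor.Whit
import Pool.Agent.W732.Cor.All

/-!
Automorphisms of the unit ball send complex lines to complex lines, so that they preserve the
functions with affine fibres.
-/

set_option autoImplicit false

open Metric Set Filter Topology Complex

namespace Pool.Agent.R223.Crn

open Pool.Agent.TH310.Cor (HB Aut aut_mv)
open Pool.Agent.W732.Cor (V mv)
open Pool.Agent.Y263.GF (AF AD)

variable {m : ℕ}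

/-- holomorphic self maps of the ball which send lines to lines -/
structure LF (θ : V m → V m) : Prop where
  d : DifferentiableOn ℂ θ (ball 0 1)
  mp : MapsTo θ (ball 0 1) (ball 0 1)
  lf : ∀ z ∈ ball (0 : V m) 1, ∀ z' ∈ ball (0 : V m) 1, ∃ c : ℂ, c ≠ 0 ∧
    θ z' - θ z = c • fderiv ℂ θ z (z' - z)

theorem LF.comp {θ₁ θ₂ : V m → V m} (h1 : LF θ₁) (h2 : LF θ₂) : LF (fun z => θ₁ (θ₂ z)) where
  d := h1.d.comp h2.d h2.mp
  mp := h1.mp.comp h2.mp
  lf := by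
    intro z hz z' hz'
    obtain ⟨c1, hc1, e1⟩ := h1.lf _ (h2.mp hz) _ (h2.mp hz')
    obtain ⟨c2, hc2, e2⟩ := h2.lf z hz z' hz'
    refine ⟨c1 * c2, mul_ne_zero hc1 hc2, ?_⟩
    have hd2 : HasFDerivAt θ₂ (fderiv ℂ θ₂ z) z :=
      (h2.d.differentiableAt (isOpen_ball.mem_nhds hz)).hasFDerivAt
    have hd1 : HasFDerivAt θ₁ (fderiv ℂ θ₁ (θ₂ z)) (θ₂ z) :=
      (h1.d.differentiableAt (isOpen_ball.mem_nhds (h2.mp hz))).hasFDerivAt
    have h3 : HasFDerivAt (fun z => θ₁ (θ₂ z))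
        ((fderiv ℂ θ₁ (θ₂ z)).comp (fderiv ℂ θ₂ z)) z := HasFDerivAt.comp z hd1 hd2
    rw [h3.fderiv, ContinuousLinearMap.comp_apply, e1, e2, map_smul, smul_smul]

theorem LF.af {θ : V m → V m} (h : LF θ) {ψ : V m → ℂ} (hψ : AF (ball (0 : V m) 1) ψ) :
    AF (ball (0 : V m) 1) (fun z => ψ (θ z)) := by
  refine ⟨hψ.diff.comp h.d h.mp, fun z hz z' hz' => ?_⟩
  obtain ⟨c, hc, e⟩ := h.lf z hz z' hz'
  have hd2 : HasFDerivAt θ (fderiv ℂ θ z) z :=
    (h.d.differentiableAt (isOpen_ball.mem_nhds hz)).hasFDerivAt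
  have hd1 : HasFDerivAt ψ (fderiv ℂ ψ (θ z)) (θ z) :=
    (hψ.diff.differentiableAt (isOpen_ball.mem_nhds (h.mp hz))).hasFDerivAt
  have h3 : HasFDerivAt (fun z => ψ (θ z))
      ((fderiv ℂ ψ (θ z)).comp (fderiv ℂ θ z)) z := HasFDerivAt.comp z hd1 hd2
  rw [h3.fderiv, ContinuousLinearMap.comp_apply, hψ.fib _ (h.mp hz) _ (h.mp hz'), e, map_smul,
    smul_eq_zero, or_iff_right hc]

theorem mv_LF {p : V m} (hp : ‖p‖ = 1) {a : ℂ} (ha : a ∈ ball (0 : ℂ) 1) : LF (mv p a) := by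
  have hA := aut_mv Pool.Agent.W732.Cor.t_mv hp ha
  refine ⟨hA.d1, hA.m1, fun z hz z' hz' => ?_⟩
  set β : V m →L[ℂ] ℂ := (starRingEnd ℂ a) • innerSL ℂ p with hβ
  set P : V m →L[ℂ] V m := (innerSL ℂ p).smulRight p with hP
  set L : V m →L[ℂ] V m := P + (((√(1 - ‖a‖ ^ 2) : ℝ) : ℂ)) •
    (ContinuousLinearMap.id ℂ (V m) - P) with hL
  have hβz : ∀ z : V m, β z = starRingEnd ℂ a * inner ℂ p z := fun z => by simp [hβ]
  have hmv : ∀ z : V m, mv p a z = (1 + β z)⁻¹ • (L z + a • p) := by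
    intro z
    unfold mv
    rw [hβz, one_div]
    congr 1
    simp only [hL, hP, add_apply, smul_apply, sub_apply, ContinuousLinearMap.smulRight_apply,
      innerSL_apply_apply, ContinuousLinearMap.id_apply]
    module
  have hne : ∀ z ∈ ball (0 : V m) 1, (1 + β z) ≠ 0 := by
    intro z hz h0
    have h1 : ‖β z‖ < 1 := by
      rw [hβz, norm_mul, RCLike.norm_conj]
      have h2 := norm_inner_le_norm (𝕜 := ℂ) p z
      rw [hp, one_mul] at h2
      have h3 := mem_ball_zero_iff.1 hz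
      have h4 := mem_ball_zero_iff.1 ha
      calc ‖a‖ * ‖(inner ℂ p z : ℂ)‖ ≤ 1 * ‖(inner ℂ p z : ℂ)‖ := by gcongr
        _ < 1 := by rw [one_mul]; exact h2.trans_lt h3
    have h5 : β z = -1 := by linear_combination h0
    rw [h5, norm_neg, norm_one] at h1
    exact lt_irrefl _ h1
  have hu := hne z hz
  have hu' := hne z' hz'
  have h1 : HasFDerivAt (fun z : V m => 1 + β z) β z := β.hasFDerivAt.const_add 1
  have h2 : HasFDerivAt (fun z : V m => (1 + β z)⁻¹) (-((1 + β z) ^ 2)⁻¹ • β) z :=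
    (hasDerivAt_inv hu).comp_hasFDerivAt z h1
  have h3 : HasFDerivAt (fun z : V m => L z + a • p) L z := L.hasFDerivAt.add_const (a • p)
  have h4 : HasFDerivAt (fun z : V m => (1 + β z)⁻¹ • (L z + a • p))
      ((1 + β z)⁻¹ • L + (-((1 + β z) ^ 2)⁻¹ • β).smulRight (L z + a • p)) z := h2.smul h3
  have h5 : HasFDerivAt (mv p a)
      ((1 + β z)⁻¹ • L + (-((1 + β z) ^ 2)⁻¹ • β).smulRight (L z + a • p)) z := by
    refine h4.congr_of_eventuallyEq (Eventually.of_forall fun z => ?_)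
    exact hmv z
  obtain ⟨v, hv⟩ : ∃ v, v = z' - z := ⟨_, rfl⟩
  have hz'v : z' = z + v := by rw [hv]; abel
  refine ⟨(1 + β z) / (1 + β z'), div_ne_zero hu hu', ?_⟩
  rw [h5.fderiv, hmv, hmv, ← hv]
  simp only [add_apply, smul_apply, ContinuousLinearMap.smulRight_apply, smul_eq_mul]
  have hLz : L z' = L z + L v := by rw [hz'v, map_add]
  have hβz' : β z' = β z + β v := by rw [hz'v, map_add]
  have s1 : (1 + β z) / (1 + β z') * (1 + β z)⁻¹ = (1 + β z')⁻¹ := by field_simp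
  have s2 : (1 + β z) / (1 + β z') * (-((1 + β z) ^ 2)⁻¹ * β v) =
      (1 + β z')⁻¹ - (1 + β z)⁻¹ := by
    field_simp
    rw [hβz']
    ring
  have e1 : L z' + a • p = (L z + a • p) + L v := by rw [hLz]; abel
  rw [e1]
  generalize L z + a • p = X
  rw [smul_add ((1 + β z) / (1 + β z')), smul_smul ((1 + β z) / (1 + β z')),
    smul_smul ((1 + β z) / (1 + β z')), s1, s2]
  module

theorem cartan {θ θ' : V m → V m} (h : Aut θ θ') (h0 : θ 0 = 0) :
    ∀ z ∈ ball (0 : V m) 1, θ z = fderiv ℂ θ 0 z := by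
  have h0' : θ' 0 = 0 := by
    have := h.i1 0 (mem_ball_self one_pos)
    rwa [h0] at this
  have n1 : ∀ z ∈ ball (0 : V m) 1, ‖θ z‖ ≤ ‖z‖ := fun z hz =>
    Complex.norm_le_norm_of_mapsTo_ball h.d1
      (fun w hw => ball_subset_closedBall (h.m1 hw)) h0 (mem_ball_zero_iff.1 hz)
  have n2 : ∀ z ∈ ball (0 : V m) 1, ‖θ' z‖ ≤ ‖z‖ := fun z hz =>
    Complex.norm_le_norm_of_mapsTo_ball h.d2
      (fun w hw => ball_subset_closedBall (h.m2 hw)) h0' (mem_ball_zero_iff.1 hz)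
  have n3 : ∀ z ∈ ball (0 : V m) 1, ‖θ z‖ = ‖z‖ := by
    intro z hz
    refine le_antisymm (n1 z hz) ?_
    have := n2 _ (h.m1 hz)
    rwa [h.i1 z hz] at this
  have hd0 : HasFDerivAt θ (fderiv ℂ θ 0) 0 :=
    (h.d1.differentiableAt (isOpen_ball.mem_nhds (mem_ball_self one_pos))).hasFDerivAt
  intro z hz
  by_cases hz0 : z = 0
  · rw [hz0, h0, map_zero]
  have hzn : 0 < ‖z‖ := norm_pos_iff.2 hz0
  have hz1 : ‖z‖ < 1 := mem_ball_zero_iff.1 hz
  obtain ⟨e, he⟩ : ∃ e : V m, e = ((‖z‖⁻¹ : ℝ) : ℂ) • z := ⟨_, rfl⟩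
  have he1 : ‖e‖ = 1 := by
    rw [he, norm_smul, Complex.norm_real, norm_inv, norm_norm, inv_mul_cancel₀ hzn.ne']
  have hze : z = ((‖z‖ : ℝ) : ℂ) • e := by
    rw [he, smul_smul, ← Complex.ofReal_mul, mul_inv_cancel₀ hzn.ne', Complex.ofReal_one, one_smul]
  obtain ⟨g, hg⟩ : ∃ g : ℂ → V m, g = fun t => θ (t • e) := ⟨_, rfl⟩
  have hmem : ∀ t ∈ ball (0 : ℂ) 1, t • e ∈ ball (0 : V m) 1 := by
    intro t ht
    rw [mem_ball_zero_iff, norm_smul, he1, mul_one]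
    exact mem_ball_zero_iff.1 ht
  have hgd : DifferentiableOn ℂ g (ball 0 1) := by
    rw [hg]
    exact h.d1.comp (by fun_prop) hmem
  have hg0 : g 0 = 0 := by rw [hg]; simp [h0]
  have hgm : MapsTo g (ball 0 1) (closedBall (g 0) 1) := by
    intro t ht
    rw [hg0, hg]
    exact ball_subset_closedBall (h.m1 (hmem t ht))
  have hhalf : (1 / 2 : ℂ) ∈ ball (0 : ℂ) 1 := by
    rw [mem_ball_zero_iff]
    norm_num
  have hds : ‖dslope g 0 (1 / 2)‖ = 1 / 1 := by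
    rw [dslope_of_ne _ (by norm_num), slope_def_module, norm_smul, hg0, sub_zero, sub_zero, hg]
    rw [n3 _ (hmem _ hhalf), norm_smul, he1]
    norm_num
  have haff := Complex.affine_of_mapsTo_ball_of_norm_dslope_eq_div hgd hgm hhalf hds
  obtain ⟨w, hw⟩ : ∃ w : V m, w = dslope g 0 (1 / 2) := ⟨_, rfl⟩
  have haff' : ∀ t ∈ ball (0 : ℂ) 1, g t = t • w := by
    intro t ht
    have := haff ht
    simp only [hg0, sub_zero, zero_add] at this
    rw [this, hw]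
  have hder1 : HasDerivAt g w 0 := by
    have h1 : HasDerivAt (fun t : ℂ => t • w) ((1 : ℂ) • w) 0 := (hasDerivAt_id (0 : ℂ)).smul_const w
    rw [one_smul] at h1
    refine h1.congr_of_eventuallyEq ?_
    filter_upwards [isOpen_ball.mem_nhds (mem_ball_self (x := (0 : ℂ)) one_pos)] with t ht
    exact haff' t ht
  have hder2 : HasDerivAt g (fderiv ℂ θ 0 e) 0 := by
    have h1 : HasDerivAt (fun t : ℂ => t • e) ((1 : ℂ) • e) 0 := (hasDerivAt_id (0 : ℂ)).smul_const e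
    rw [one_smul] at h1
    have h2 : HasFDerivAt θ (fderiv ℂ θ 0) ((0 : ℂ) • e) := by rw [zero_smul]; exact hd0
    have h3 : HasDerivAt (θ ∘ fun t : ℂ => t • e) (fderiv ℂ θ 0 e) 0 :=
      HasFDerivAt.comp_hasDerivAt (0 : ℂ) h2 h1
    rw [hg]
    exact h3
  have hwe : w = fderiv ℂ θ 0 e := hder1.unique hder2
  have hzt : ((‖z‖ : ℝ) : ℂ) ∈ ball (0 : ℂ) 1 := by
    rw [mem_ball_zero_iff, Complex.norm_real, norm_norm]
    exact hz1
  have h6 := haff' _ hzt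
  rw [hg, hwe] at h6
  simp only [] at h6
  rw [← hze] at h6
  rw [h6, ← map_smul, ← hze]

theorem lin_LF {θ θ' : V m → V m} (h : Aut θ θ') (h0 : θ 0 = 0) : LF θ := by
  have hc := cartan h h0
  refine ⟨h.d1, h.m1, fun z hz z' hz' => ⟨1, one_ne_zero, ?_⟩⟩
  have h1 : fderiv ℂ θ z = fderiv ℂ θ 0 := by
    have h2 : HasFDerivAt θ (fderiv ℂ θ 0) z := by
      refine (fderiv ℂ θ 0).hasFDerivAt.congr_of_eventuallyEq ?_
      filter_upwards [isOpen_ball.mem_nhds hz] with w hw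
      exact hc w hw
    exact h2.fderiv
  rw [h1, one_smul, map_sub, hc z hz, hc z' hz']

theorem mv_zero (p : V m) (a : ℂ) : mv p a 0 = a • p := by
  unfold mv
  simp

theorem aut_LF {ψ φ : V m → V m} (h : Aut ψ φ) : LF ψ := by
  by_cases hb : φ 0 = 0
  · refine lin_LF h ?_
    have := h.i2 0 (mem_ball_self one_pos)
    rwa [hb] at this
  have hbn : 0 < ‖φ 0‖ := norm_pos_iff.2 hb
  have hb1 : φ 0 ∈ ball (0 : V m) 1 := h.m2 (mem_ball_self one_pos)
  obtain ⟨p, hp⟩ : ∃ p : V m, p = ((‖φ 0‖⁻¹ : ℝ) : ℂ) • φ 0 := ⟨_, rfl⟩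
  have hp1 : ‖p‖ = 1 := by
    rw [hp, norm_smul, Complex.norm_real, norm_inv, norm_norm, inv_mul_cancel₀ hbn.ne']
  have hbp : φ 0 = ((‖φ 0‖ : ℝ) : ℂ) • p := by
    rw [hp, smul_smul, ← Complex.ofReal_mul, mul_inv_cancel₀ hbn.ne', Complex.ofReal_one, one_smul]
  have ha : ((‖φ 0‖ : ℝ) : ℂ) ∈ ball (0 : ℂ) 1 := by
    rw [mem_ball_zero_iff, Complex.norm_real, norm_norm]
    exact mem_ball_zero_iff.1 hb1
  obtain ⟨a, hae⟩ : ∃ a : ℂ, a = ((‖φ 0‖ : ℝ) : ℂ) := ⟨_, rfl⟩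
  rw [← hae] at ha hbp
  have hA := aut_mv Pool.Agent.W732.Cor.t_mv hp1 ha
  have hθ := h.comp hA
  have hθ0 : (fun z => ψ (mv p a z)) 0 = 0 := by
    change ψ (mv p a 0) = 0
    rw [mv_zero, ← hbp]
    exact h.i2 0 (mem_ball_self one_pos)
  have h1 := lin_LF hθ hθ0
  have ha' : -a ∈ ball (0 : ℂ) 1 := by simpa using ha
  have h2 := h1.comp (mv_LF hp1 ha')
  refine ⟨h.d1, h.m1, fun z hz z' hz' => ?_⟩
  obtain ⟨c, hc, e⟩ := h2.lf z hz z' hz'
  refine ⟨c, hc, ?_⟩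
  have heq : ∀ w ∈ ball (0 : V m) 1, ψ (mv p a (mv p (-a) w)) = ψ w := fun w hw => by
    rw [hA.i2 w hw]
  have hfd : fderiv ℂ (fun w => ψ (mv p a (mv p (-a) w))) z = fderiv ℂ ψ z := by
    refine Filter.EventuallyEq.fderiv_eq ?_
    filter_upwards [isOpen_ball.mem_nhds hz] with w hw
    exact heq w hw
  change ψ (mv p a (mv p (-a) z')) - ψ (mv p a (mv p (-a) z)) = _ at e
  rw [heq z' hz', heq z hz] at e
  rw [e, hfd]

/-- functions with affine fibres are preserved by automorphisms -/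
theorem AD.comp_aut {ψ φ : V m → V m} (h : Aut ψ φ) {u : V m → ℂ} (hu : AD u) :
    AD (fun z => u (ψ z)) :=
  ⟨(aut_LF h).af hu.1, fun z hz => hu.2 _ (h.m1 hz)⟩

end Pool.Agent.R223.Crn
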