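import Mathlib
import Pool.Agent.R223.Crn.Aff

/-!
Resolvable families of bounded holomorphic functions on the ball.
-/

set_option autoImplicit false

open Metric Set Filter Topology Complex

namespace Pool.Agent.R223.Crn

open Pool.Agent.TH310.Cor (HB Aut aut_mv Lo HB_inner HB_Lo Lo_ge)
open Pool.Agent.W732.Cor (V mv)
open Pool.Agent.Y263.GF (AF AD)

variable {m : ℕ}

/-- the functions `f ∘ ψ`, `|f| ≤ 1` holomorphic on the disc, `ψ` with affine fibres -/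
def R1 (F : V m → ℂ) : Prop :=
  ∃ (f : ℂ → ℂ) (ψ : V m → ℂ), DifferentiableOn ℂ f (ball 0 1) ∧
    (∀ w ∈ ball (0 : ℂ) 1, ‖f w‖ ≤ 1) ∧ AD ψ ∧ ∀ z ∈ ball (0 : V m) 1, F z = f (ψ z)

/-- resolvable families -/
inductive Rs : Set (V m → ℂ) → Prop
  | base (ℱ : Set (V m → ℂ)) (h : ∀ F ∈ ℱ, R1 F) : Rs ℱ
  | whit (ℱ : Set (V m → ℂ)) (p : V m) (hp : ‖p‖ = 1) (ρ : V m → ℝ → ℝ)
      (hρ : ∀ q ε, 0 < ε → 0 < ρ q ε) (ℋ : V m → Set (V m → ℂ))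
      (hℋ : ∀ q, ‖q‖ = 1 → (inner ℂ p q : ℂ) = 0 → Rs (ℋ q))
      (h : ∀ F ∈ ℱ, HB F ∧ ∃ ψ φ : V m → V m, Aut ψ φ ∧
        ∀ q : V m, ‖q‖ = 1 → (inner ℂ p q : ℂ) = 0 → ∀ a ∈ ball (0 : ℂ) 1, ∃ H ∈ ℋ q,
          ∀ ε : ℝ, 0 < ε → ∀ z ∈ ball (0 : V m) 1, ‖z - q‖ < ρ q ε →
            ‖F (ψ (mv p a z)) - H z‖ ≤ ε) : Rs ℱ

theorem R1.hb {F : V m → ℂ} (h : R1 F) : HB F := by
  obtain ⟨f, ψ, hf, hfb, hψ, hF⟩ := h
  refine ⟨?_, fun z hz => ?_⟩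
  · have h1 : DifferentiableOn ℂ (fun z => f (ψ z)) (ball (0 : V m) 1) :=
      hf.comp hψ.1.diff (fun z hz => mem_ball_zero_iff.2 (hψ.2 z hz))
    exact h1.congr hF
  · rw [hF z hz]
    exact hfb _ (mem_ball_zero_iff.2 (hψ.2 z hz))

theorem R1.comp {F : V m → ℂ} (h : R1 F) {θ θ' : V m → V m} (hθ : Aut θ θ') :
    R1 (fun z => F (θ z)) := by
  obtain ⟨f, ψ, hf, hfb, hψ, hF⟩ := h
  exact ⟨f, fun z => ψ (θ z), hf, hfb, AD.comp_aut hθ hψ, fun z hz => hF _ (hθ.m1 hz)⟩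

theorem R1.aff {F : V m → ℂ} (h : R1 F) {α β : ℂ} (hab : ‖α‖ + ‖β‖ ≤ 1) {F' : V m → ℂ}
    (hF' : ∀ z ∈ ball (0 : V m) 1, F' z = α * F z + β) : R1 F' := by
  obtain ⟨f, ψ, hf, hfb, hψ, hF⟩ := h
  refine ⟨fun w => α * f w + β, ψ, (hf.const_mul α).add_const β, fun w hw => ?_, hψ,
    fun z hz => by rw [hF' z hz, hF z hz]⟩
  refine (norm_add_le _ _).trans (le_trans ?_ hab)
  rw [norm_mul]
  have := hfb w hw
  nlinarith [norm_nonneg α]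

theorem AD_inner {q : V m} (hq : ‖q‖ = 1) : AD (fun z : V m => (inner ℂ q z : ℂ)) := by
  refine ⟨⟨(innerSL ℂ q).differentiable.differentiableOn, fun z hz z' hz' => ?_⟩, fun z hz => ?_⟩
  · have h1 : HasFDerivAt (fun z : V m => (inner ℂ q z : ℂ)) (innerSL ℂ q) z :=
      (innerSL ℂ q).hasFDerivAt
    rw [h1.fderiv, map_sub, sub_eq_zero]
    rfl
  · refine (norm_inner_le_norm q z).trans_lt ?_
    rw [hq, one_mul]
    exact mem_ball_zero_iff.1 hz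

theorem R1_Lo {q : V m} (hq : ‖q‖ = 1) : R1 (Lo q) := by
  refine ⟨fun w => (1 - w) / 2, fun z => inner ℂ q z, ?_, fun w hw => ?_, AD_inner hq,
    fun z _ => rfl⟩
  · have h1 : Differentiable ℂ (fun w : ℂ => (1 - w) * (2 : ℂ)⁻¹) :=
      (differentiable_id.const_sub (1 : ℂ)).mul_const _
    exact h1.differentiableOn
  · rw [norm_div]
    have h2 : ‖(2 : ℂ)‖ = 2 := by norm_num
    rw [h2, div_le_one (by norm_num)]
    have h3 := mem_ball_zero_iff.1 hw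
    calc ‖1 - w‖ ≤ ‖(1 : ℂ)‖ + ‖w‖ := norm_sub_le _ _
      _ ≤ 2 := by rw [norm_one]; linarith

theorem AD_zero : AD (fun _ : V m => (0 : ℂ)) := by
  refine ⟨⟨differentiableOn_const _, fun z hz z' hz' => ?_⟩, fun z hz => by simp⟩
  simp

theorem R1_const {c : ℂ} (hc : ‖c‖ ≤ 1) : R1 (fun _ : V m => c) :=
  ⟨fun _ => c, fun _ => 0, differentiableOn_const _, fun _ _ => hc, AD_zero, fun _ _ => rfl⟩

theorem Rs.hb {ℱ : Set (V m → ℂ)} (h : Rs ℱ) : ∀ F ∈ ℱ, HB F := by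
  cases h with
  | base _ h => exact fun F hF => (h F hF).hb
  | whit _ p hp ρ hρ ℋ hℋ h => exact fun F hF => (h F hF).1

/-- the closure of a family under automorphisms and affine maps -/
def AC (ℱ : Set (V m → ℂ)) : Set (V m → ℂ) :=
  {F' | ∃ F ∈ ℱ, ∃ θ θ' : V m → V m, Aut θ θ' ∧ ∃ α β : ℂ, ‖α‖ + ‖β‖ ≤ 1 ∧
    ∀ z ∈ ball (0 : V m) 1, F' z = α * F (θ z) + β}

theorem Aut.id : Aut (fun z : V m => z) (fun z => z) :=
  ⟨differentiableOn_id, differentiableOn_id, fun _ h => h, fun _ h => h, fun _ _ => rfl,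
    fun _ _ => rfl⟩

theorem sub_AC (ℱ : Set (V m → ℂ)) : ℱ ⊆ AC ℱ := fun F hF =>
  ⟨F, hF, fun z => z, fun z => z, Aut.id, 1, 0, by simp, fun z _ => by simp⟩

theorem AC_aff {ℱ : Set (V m → ℂ)} {F : V m → ℂ} (hF : F ∈ AC ℱ) {θ θ' : V m → V m}
    (hθ : Aut θ θ') {α β : ℂ} (hab : ‖α‖ + ‖β‖ ≤ 1) {F' : V m → ℂ}
    (hF' : ∀ z ∈ ball (0 : V m) 1, F' z = α * F (θ z) + β) : F' ∈ AC ℱ := by
  obtain ⟨F₀, hF₀, θ₀, θ₀', hθ₀, α₀, β₀, h1, h2⟩ := hF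
  refine ⟨F₀, hF₀, _, _, hθ₀.comp hθ, α * α₀, α * β₀ + β, ?_, fun z hz => ?_⟩
  · have h3 := norm_add_le (α * β₀) β
    rw [norm_mul] at h3
    rw [norm_mul]
    have h4 : ‖α‖ * (‖α₀‖ + ‖β₀‖) ≤ ‖α‖ * 1 := by gcongr
    nlinarith
  · rw [hF' z hz, h2 _ (hθ.m1 hz)]
    ring

theorem Rs.ac {ℱ : Set (V m → ℂ)} (h : Rs ℱ) : Rs (AC ℱ) := by
  induction h with
  | base ℱ h =>
    refine Rs.base _ ?_
    rintro F' ⟨F, hF, θ, θ', hθ, α, β, hab, h1⟩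
    exact ((h F hF).comp hθ).aff hab h1
  | whit ℱ p hp ρ hρ ℋ hℋ h ih =>
    refine Rs.whit _ p hp ρ hρ (fun q => AC (ℋ q)) ih ?_
    rintro F' ⟨F, hF, θ, θ', hθ, α, β, hab, h1⟩
    obtain ⟨hFb, ψ, φ, hψ, h2⟩ := h F hF
    have hα : ‖α‖ ≤ 1 := by linarith [norm_nonneg β]
    refine ⟨⟨?_, fun z hz => ?_⟩, _, _, hθ.symm.comp hψ, fun q hq hpq a ha => ?_⟩
    · have h3 : DifferentiableOn ℂ (fun z => α * F (θ z) + β) (ball (0 : V m) 1) :=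
        ((hFb.comp hθ).1.const_mul α).add_const β
      exact h3.congr h1
    · rw [h1 z hz]
      refine (norm_add_le _ _).trans (le_trans ?_ hab)
      rw [norm_mul]
      have := hFb.2 _ (hθ.m1 hz)
      nlinarith [norm_nonneg α]
    · obtain ⟨H, hH, h3⟩ := h2 q hq hpq a ha
      refine ⟨fun z => α * H z + β, ⟨H, hH, fun z => z, fun z => z, Aut.id, α, β, hab,
        fun z _ => rfl⟩, fun ε hε z hz hzq => ?_⟩
      have hA := aut_mv Pool.Agent.W732.Cor.t_mv hp ha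
      have hw : ψ (mv p a z) ∈ ball (0 : V m) 1 := hψ.m1 (hA.m1 hz)
      rw [h1 _ (hθ.m2 hw), hθ.i2 _ hw]
      have h4 : α * F (ψ (mv p a z)) + β - (α * H z + β) = α * (F (ψ (mv p a z)) - H z) := by ring
      rw [h4, norm_mul]
      have h5 := h3 ε hε z hz hzq
      calc ‖α‖ * ‖F (ψ (mv p a z)) - H z‖ ≤ 1 * ε := by gcongr
        _ = ε := one_mul _

theorem Rs.mono {ℱ ℱ' : Set (V m → ℂ)} (h : Rs ℱ) (hs : ℱ' ⊆ ℱ) : Rs ℱ' := by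
  cases h with
  | base _ h => exact Rs.base _ fun F hF => h F (hs hF)
  | whit _ p hp ρ hρ ℋ hℋ h => exact Rs.whit _ p hp ρ hρ ℋ hℋ fun F hF => h F (hs hF)

end Pool.Agent.R223.Crn
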