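import Mathlib
import Pool.Agent.R223.Crn.Res
import Pool.Agent.Y263.GF.Ball

/-!
Localisation over resolvable families.
-/

set_option autoImplicit false
set_option linter.unusedSectionVars false

open Metric Set Filter Topology Complex

namespace Pool.Agent.R223.Crn

open Pool.Agent.TH310.Cor (HB Aut aut_mv Lo HB_inner HB_Lo Lo_ge Solv Solv.comp SolvL whit1)
open Pool.Agent.W732.Cor (V mv t_mv t_ball)
open Pool.Agent.Y263.LF (Bez Bez.mono)
open Pool.Agent.Y263.GF (AF AD loc_aff)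

variable {m : ℕ}

/-- the localisation theorem for the families `𝔇 k`, with any number of functions of `R1` -/
def Good {κ : Type} [Fintype κ] (𝔇 : κ → Set (V m → ℂ)) : Prop :=
  ∀ (ι J : Type) [Fintype ι] [Fintype J] (ε Q : ℝ), 0 < ε → 0 ≤ Q → ∃ C : ℝ, 0 ≤ C ∧
    ∀ (A : ι → V m → ℂ) (D : κ → V m → ℂ) (G : J → V m → ℂ), (∀ i, R1 (A i)) →
      (∀ k, D k ∈ 𝔇 k) → (∀ j, HB (G j)) →
      Bez {z : V m | z ∈ ball (0 : V m) 1 ∧ (∀ i, ‖A i z‖ < ε) ∧ ∀ k, ‖D k z‖ < ε} G Q →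
      Bez (ball 0 1) (Sum.elim A (Sum.elim D G)) C

theorem good_empty {κ : Type} [Fintype κ] [IsEmpty κ] (𝔇 : κ → Set (V m → ℂ)) : Good 𝔇 := by
  intro ι J _ _ ε Q hε hQ
  obtain ⟨C, hC, H⟩ := loc_aff 1 (Fintype.card ι) (Fintype.card J) (ε := ε) (Q := Q) hε hQ
  refine ⟨C, hC, ?_⟩
  intro A D G hA hD hG hB
  obtain ⟨e, -⟩ : ∃ e : ι ≃ Fin (Fintype.card ι), True := ⟨Fintype.equivFin ι, trivial⟩
  obtain ⟨e', -⟩ : ∃ e : J ≃ Fin (Fintype.card J), True := ⟨Fintype.equivFin J, trivial⟩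
  choose f ψ hf hfb hψ hF using hA
  have h1 := H (V m) (fun k => ψ (e.symm k)) (fun k _ => f (e.symm k)) (fun k => (hψ _).1)
    (fun k => (hψ _).2) (fun k _ => hf _) (fun k _ => hfb _) (fun j => G (e'.symm j))
    (fun j => (hG _).1) (fun j => (hG _).2) (by
      obtain ⟨g, g1, g2, g3⟩ := hB
      have hsub : {z : V m | ‖z‖ < 1 ∧ ∀ (k : Fin (Fintype.card ι)) (_ : Fin 1),
          ‖f (e.symm k) (ψ (e.symm k) z)‖ < ε} ⊆
          {z : V m | z ∈ ball (0 : V m) 1 ∧ (∀ i, ‖A i z‖ < ε) ∧ ∀ k, ‖D k z‖ < ε} := by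
        intro z hz
        have hzb : z ∈ ball (0 : V m) 1 := mem_ball_zero_iff.2 hz.1
        refine ⟨hzb, fun i => ?_, fun k => isEmptyElim k⟩
        have h2 := hz.2 (e i) 0
        rw [e.symm_apply_apply] at h2
        rw [hF i z hzb]
        exact h2
      refine ⟨fun j => g (e'.symm j), fun j => (g1 _).mono hsub,
        fun j z hz => g2 _ z (hsub hz), fun z hz => ?_⟩
      rw [← g3 z (hsub hz)]
      exact Equiv.sum_comp e'.symm (fun j => G j z * g j z))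
  obtain ⟨g, g1, g2, g3⟩ := h1
  refine ⟨Sum.elim (fun i => g (Sum.inl (e i, 0)))
    (Sum.elim (fun k => isEmptyElim k) (fun j => g (Sum.inr (e' j)))), ?_, ?_, ?_⟩
  · rintro (i | k | j)
    · exact g1 _
    · exact isEmptyElim k
    · exact g1 _
  · rintro (i | k | j)
    · exact g2 _
    · exact isEmptyElim k
    · exact g2 _
  · intro z hz
    rw [← g3 z hz]
    simp only [Fintype.sum_sum_type, Sum.elim_inl, Sum.elim_inr, Finset.univ_eq_empty,
      Finset.sum_empty, zero_add, Fintype.sum_prod_type, Finset.univ_unique, Fin.default_eq_zero,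
      Finset.sum_singleton]
    congr 1
    · rw [← Equiv.sum_comp e (fun k => f (e.symm k) (ψ (e.symm k) z) * g (Sum.inl (k, 0)) z)]
      refine Finset.sum_congr rfl fun i _ => ?_
      rw [e.symm_apply_apply, hF i z hz]
    · rw [← Equiv.sum_comp e' (fun k => G (e'.symm k) z * g (Sum.inr k) z)]
      refine Finset.sum_congr rfl fun i _ => ?_
      rw [e'.symm_apply_apply]

theorem good_base {κ : Type} [Fintype κ] {𝔇 : κ → Set (V m → ℂ)} (hG : Good 𝔇)
    {ℱ : Set (V m → ℂ)} (h : ∀ F ∈ ℱ, R1 F) :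
    Good (fun o : Option κ => (o.elim ℱ 𝔇 : Set (V m → ℂ))) := by
  intro ι J _ _ ε Q hε hQ
  obtain ⟨C, hC, H⟩ := hG (Option ι) J ε Q hε hQ
  refine ⟨C, hC, fun A D G hA hD hGb hB => ?_⟩
  have hD0 : D none ∈ ℱ := hD none
  have hDs : ∀ k, D (some k) ∈ 𝔇 k := fun k => hD (some k)
  obtain ⟨g, g1, g2, g3⟩ := H (fun o => o.elim (D none) A) (fun k => D (some k)) G
    (by
      rintro (_ | i)
      · exact h _ hD0
      · exact hA i) hDs hGb
    (by
      refine hB.mono ?_ le_rfl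
      rintro z ⟨hz, h1, h2⟩
      refine ⟨hz, fun i => h1 (some i), ?_⟩
      rintro (_ | k)
      · exact h1 none
      · exact h2 k)
  refine ⟨Sum.elim (fun i => g (Sum.inl (some i)))
    (Sum.elim (fun o => o.elim (g (Sum.inl none)) (fun k => g (Sum.inr (Sum.inl k))))
      (fun j => g (Sum.inr (Sum.inr j)))), ?_, ?_, ?_⟩
  · rintro (i | (_ | k) | j)
    · exact g1 _
    · exact g1 _
    · exact g1 _
    · exact g1 _
  · rintro (i | (_ | k) | j)
    · exact g2 _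
    · exact g2 _
    · exact g2 _
    · exact g2 _
  · intro z hz
    rw [← g3 z hz]
    simp only [Fintype.sum_sum_type, Sum.elim_inl, Sum.elim_inr, Fintype.sum_option,
      Option.elim_none, Option.elim_some]
    ring

theorem good_whit {κ : Type} [Fintype κ] {𝔇 : κ → Set (V m → ℂ)}
    (hAC : ∀ k, AC (𝔇 k) ⊆ 𝔇 k) (hDb : ∀ k, ∀ D ∈ 𝔇 k, HB D)
    {ℱ : Set (V m → ℂ)} {p : V m} (hp : ‖p‖ = 1) {ρ : V m → ℝ → ℝ}
    (hρ : ∀ q ε, 0 < ε → 0 < ρ q ε) {ℋ : V m → Set (V m → ℂ)}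
    (hG : ∀ q, ‖q‖ = 1 → (inner ℂ p q : ℂ) = 0 →
      Good (fun o : Option κ => (o.elim (ℋ q) 𝔇 : Set (V m → ℂ))))
    (h : ∀ F ∈ ℱ, HB F ∧ ∃ ψ φ : V m → V m, Aut ψ φ ∧
        ∀ q : V m, ‖q‖ = 1 → (inner ℂ p q : ℂ) = 0 → ∀ a ∈ ball (0 : ℂ) 1, ∃ H ∈ ℋ q,
          ∀ ε : ℝ, 0 < ε → ∀ z ∈ ball (0 : V m) 1, ‖z - q‖ < ρ q ε →
            ‖F (ψ (mv p a z)) - H z‖ ≤ ε) :
    Good (fun o : Option κ => (o.elim ℱ 𝔇 : Set (V m → ℂ))) := by
  classical
  intro ι J _ _ ε Q hε hQ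
  let I : Type := {x : (ι → V m → ℂ) × (Option κ → V m → ℂ) × (J → V m → ℂ) //
    (∀ i, R1 (x.1 i)) ∧ (∀ o : Option κ, x.2.1 o ∈ (o.elim ℱ 𝔇 : Set (V m → ℂ))) ∧
    (∀ j, HB (x.2.2 j)) ∧
    Bez {z : V m | z ∈ ball (0 : V m) 1 ∧ (∀ i, ‖x.1 i z‖ < ε) ∧ ∀ k, ‖x.2.1 k z‖ < ε} x.2.2 Q}
  let Fam : I → ι ⊕ Option κ ⊕ J → V m → ℂ := fun x =>
    Sum.elim x.1.1 (Sum.elim x.1.2.1 x.1.2.2)
  suffices hS : Solv Fam by
    obtain ⟨C, hC⟩ := hS
    refine ⟨max C 0, le_max_right _ _, fun A D G hA hD hGb hB => ?_⟩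
    obtain ⟨g, g1, g2, g3⟩ := hC ⟨(A, D, G), hA, hD, hGb, hB⟩
    exact ⟨g, g1, fun j z hz => (g2 j z hz).trans (le_max_left _ _), g3⟩
  have hF0 : ∀ x : I, x.1.2.1 none ∈ ℱ := fun x => x.2.2.1 none
  choose ψ φ hψ hloc using fun x : I => (h _ (hF0 x)).2
  refine Solv.comp (F := Fam) (fun x => (hψ x).symm) ?_
  have hFb : ∀ x o, HB (Fam x o) := by
    rintro x (i | (_ | k) | j)
    · exact (x.2.1 i).hb
    · exact (h _ (hF0 x)).1
    · exact hDb k _ (x.2.2.1 (some k))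
    · exact x.2.2.2.1 j
  have hQ1 : 0 < Q + 1 := by linarith
  refine whit1 t_mv t_ball hp (F := fun x o z => Fam x o (ψ x z))
    (fun x o => (hFb x o).comp (hψ x)) (δ := min ε (1 / (Q + 1)))
    (lt_min hε (by positivity)) ?_ ?_
  · intro x z hz
    have hw : ψ x z ∈ ball (0 : V m) 1 := (hψ x).m1 hz
    obtain ⟨w, hwe⟩ : ∃ w, w = ψ x z := ⟨_, rfl⟩
    rw [← hwe] at hw
    change min ε (1 / (Q + 1)) ≤ ∑ o, ‖Fam x o (ψ x z)‖
    rw [← hwe]
    by_cases hc : (∀ i, ‖x.1.1 i w‖ < ε) ∧ ∀ k, ‖x.1.2.1 k w‖ < ε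
    · obtain ⟨g, g1, g2, g3⟩ := x.2.2.2.2
      have h1 := g3 w ⟨hw, hc⟩
      have h2 : (1 : ℝ) ≤ (∑ j, ‖x.1.2.2 j w‖) * Q := by
        calc (1 : ℝ) = ‖∑ j, x.1.2.2 j w * g j w‖ := by rw [h1, norm_one]
          _ ≤ ∑ j, ‖x.1.2.2 j w * g j w‖ := norm_sum_le _ _
          _ ≤ ∑ j, ‖x.1.2.2 j w‖ * Q := by
              refine Finset.sum_le_sum fun j _ => ?_
              rw [norm_mul]
              exact mul_le_mul_of_nonneg_left (g2 j w ⟨hw, hc⟩) (norm_nonneg _)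
          _ = _ := by rw [Finset.sum_mul]
      have h3 : 0 ≤ ∑ j, ‖x.1.2.2 j w‖ := Finset.sum_nonneg fun j _ => norm_nonneg _
      have h4 : 1 / (Q + 1) ≤ ∑ j, ‖x.1.2.2 j w‖ := by
        rw [div_le_iff₀ hQ1]
        nlinarith
      refine (min_le_right _ _).trans (h4.trans ?_)
      have h5 : ∑ o, ‖Fam x o w‖ = ∑ i, ‖x.1.1 i w‖ + (∑ k, ‖x.1.2.1 k w‖ +
          ∑ j, ‖x.1.2.2 j w‖) := by
        rw [Fintype.sum_sum_type, Fintype.sum_sum_type]
        rfl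
      rw [h5]
      have h6 : 0 ≤ ∑ i, ‖x.1.1 i w‖ := Finset.sum_nonneg fun j _ => norm_nonneg _
      have h7 : 0 ≤ ∑ k, ‖x.1.2.1 k w‖ := Finset.sum_nonneg fun j _ => norm_nonneg _
      linarith
    · have h1 : ∃ o, ε ≤ ‖Fam x o w‖ := by
        by_contra hcon
        push Not at hcon
        exact hc ⟨fun i => hcon (Sum.inl i), fun k => hcon (Sum.inr (Sum.inl k))⟩
      obtain ⟨o, ho⟩ := h1
      exact (min_le_left _ _).trans (ho.trans
        (Finset.single_le_sum (f := fun o => ‖Fam x o w‖) (fun _ _ => norm_nonneg _)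
          (Finset.mem_univ o)))
  · intro q hq hpq
    obtain ⟨ρ₁, hρ₁e⟩ : ∃ ρ₁, ρ₁ = ρ q (ε / 2) := ⟨_, rfl⟩
    have hρ₁ : 0 < ρ₁ := by rw [hρ₁e]; exact hρ q _ (by positivity)
    obtain ⟨ε', hε'e⟩ : ∃ ε', ε' = min (ε / 2) (ρ₁ ^ 2 / 4) := ⟨_, rfl⟩
    have hε' : 0 < ε' := by rw [hε'e]; positivity
    have hε'1 : ε' ≤ ε / 2 := by rw [hε'e]; exact min_le_left _ _
    have hε'2 : ε' ≤ ρ₁ ^ 2 / 4 := by rw [hε'e]; exact min_le_right _ _
    obtain ⟨C, hC, H⟩ := hG q hq hpq (Option ι) J ε' Q hε' hQ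
    obtain ⟨η, hηe⟩ : ∃ η, η = 1 / (4 * (C + 1)) := ⟨_, rfl⟩
    have hη : 0 < η := by rw [hηe]; positivity
    have hηC : η * C ≤ 1 / 4 := by
      rw [hηe, div_mul_eq_mul_div, one_mul, div_le_div_iff₀ (by positivity) (by norm_num)]
      linarith
    refine ⟨2 * C, min (ρ q η) η, lt_min (hρ q η hη) hη, ?_⟩
    rintro ⟨x, a⟩
    obtain ⟨h0, hh0, hh1⟩ := hloc x q hq hpq a a.2
    have hA := aut_mv t_mv hp a.2
    have hθ := (hψ x).comp hA
    obtain ⟨θ, hθe⟩ : ∃ θ : V m → V m, θ = fun z => ψ x (mv p a z) := ⟨_, rfl⟩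
    rw [← hθe] at hθ
    have hh1' : ∀ ε : ℝ, 0 < ε → ∀ z ∈ ball (0 : V m) 1, ‖z - q‖ < ρ q ε →
        ‖x.1.2.1 none (θ z) - h0 z‖ ≤ ε := by
      rw [hθe]
      exact hh1
    obtain ⟨g, g1, g2, g3⟩ := H (fun o => o.elim (Lo q) (fun i z => x.1.1 i (θ z)))
      (fun o => o.elim h0 (fun k z => x.1.2.1 (some k) (θ z)))
      (fun j z => x.1.2.2 j (θ z))
      (by
        rintro (_ | i)
        · exact R1_Lo hq
        · exact (x.2.1 i).comp hθ)
      (by
        rintro (_ | k)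
        · exact hh0
        · exact hAC k (AC_aff (sub_AC _ (x.2.2.1 (some k))) hθ (α := 1) (β := 0) (by simp)
            (fun z _ => by simp)))
      (fun j => (x.2.2.2.1 j).comp hθ)
      (by
        obtain ⟨g, g1, g2, g3⟩ := x.2.2.2.2
        have hmap : MapsTo θ {z : V m | z ∈ ball (0 : V m) 1 ∧
            (∀ o : Option ι, ‖(o.elim (Lo q) (fun i z => x.1.1 i (θ z)) : V m → ℂ) z‖ < ε') ∧
            ∀ o : Option κ, ‖(o.elim h0 (fun k z => x.1.2.1 (some k) (θ z)) : V m → ℂ) z‖ < ε'}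
            {z : V m | z ∈ ball (0 : V m) 1 ∧ (∀ i, ‖x.1.1 i z‖ < ε) ∧
              ∀ k, ‖x.1.2.1 k z‖ < ε} := by
          rintro z ⟨hz, h1, h2⟩
          refine ⟨hθ.m1 hz, fun i => ?_, ?_⟩
          · have h3 : ‖x.1.1 i (θ z)‖ < ε' := h1 (some i)
            linarith
          · rintro (_ | k)
            · have h3 : ‖Lo q z‖ < ε' := h1 none
              have h4 : ‖h0 z‖ < ε' := h2 none
              have h5 : ‖z - q‖ < ρ₁ := by
                by_contra hcon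
                push Not at hcon
                have := Lo_ge hq hz hρ₁.le hcon
                linarith
              have h6 := hh1' (ε / 2) (by positivity) z hz (by rw [← hρ₁e]; exact h5)
              have h7 := norm_add_le (x.1.2.1 none (θ z) - h0 z) (h0 z)
              rw [sub_add_cancel] at h7
              linarith
            · have h3 : ‖x.1.2.1 (some k) (θ z)‖ < ε' := h2 (some k)
              linarith
        refine ⟨fun j z => g j (θ z), fun j => ?_, fun j z hz => g2 j _ (hmap hz),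
          fun z hz => g3 _ (hmap hz)⟩
        exact (g1 j).comp (hθ.d1.mono fun z hz => hz.1) hmap)
    -- the solution near the point
    obtain ⟨G', hG'⟩ : ∃ G' : ι ⊕ Option κ ⊕ J → V m → ℂ,
        G' = Sum.elim (fun i => g (Sum.inl (some i))) (fun o => g (Sum.inr o)) := ⟨_, rfl⟩
    have hG'd : ∀ o, DifferentiableOn ℂ (G' o) (ball 0 1) := by
      rw [hG']
      rintro (i | o)
      · exact g1 _
      · exact g1 _
    have hG'b : ∀ o, ∀ z ∈ ball (0 : V m) 1, ‖G' o z‖ ≤ C := by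
      rw [hG']
      rintro (i | o)
      · exact g2 _
      · exact g2 _
    obtain ⟨u, hu⟩ : ∃ u : V m → ℂ, u = fun z => ∑ o, Fam x o (θ z) * G' o z := ⟨_, rfl⟩
    have hud : DifferentiableOn ℂ u (ball 0 1) := by
      rw [hu]
      exact DifferentiableOn.fun_sum fun o _ => ((hFb x o).comp hθ).1.fun_mul (hG'd o)
    have hid : ∀ z ∈ ball (0 : V m) 1, u z = 1 - Lo q z * g (Sum.inl none) z +
        (x.1.2.1 none (θ z) - h0 z) * g (Sum.inr (Sum.inl none)) z := by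
      intro z hz
      have h1 := g3 z hz
      rw [hu, hG']
      rw [← h1]
      simp only [Fintype.sum_sum_type, Sum.elim_inl, Sum.elim_inr, Fintype.sum_option,
        Option.elim_none, Option.elim_some, Fam]
      ring
    have hlow : ∀ z ∈ ball (0 : V m) 1 ∩ ball q (min (ρ q η) η), 1 / 2 ≤ ‖u z‖ := by
      rintro z ⟨hz, hzq⟩
      rw [mem_ball, dist_eq_norm] at hzq
      have hz1 : ‖z - q‖ < ρ q η := hzq.trans_le (min_le_left _ _)
      have hz2 : ‖z - q‖ < η := hzq.trans_le (min_le_right _ _)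
      have h1 : ‖Lo q z‖ ≤ η := by
        unfold Lo
        have h3 : (1 : ℂ) - inner ℂ q z = inner ℂ q (q - z) := by
          rw [inner_sub_right, inner_self_eq_norm_sq_to_K, hq]
          norm_num
        rw [norm_div, h3]
        have h4 : ‖(2 : ℂ)‖ = 2 := by norm_num
        have h5 := norm_inner_le_norm (𝕜 := ℂ) q (q - z)
        rw [hq, one_mul, norm_sub_rev] at h5
        rw [h4, div_le_iff₀ (by norm_num)]
        linarith
      have h2 := hh1' η hη z hz hz1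
      have h3 : ‖Lo q z * g (Sum.inl none) z‖ ≤ 1 / 4 := by
        rw [norm_mul]
        calc ‖Lo q z‖ * ‖g (Sum.inl none) z‖ ≤ η * C := by
              gcongr
              exact g2 _ z hz
          _ ≤ 1 / 4 := hηC
      have h4 : ‖(x.1.2.1 none (θ z) - h0 z) * g (Sum.inr (Sum.inl none)) z‖ ≤ 1 / 4 := by
        rw [norm_mul]
        calc ‖x.1.2.1 none (θ z) - h0 z‖ * ‖g (Sum.inr (Sum.inl none)) z‖ ≤ η * C := by
              gcongr
              exact g2 _ z hz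
          _ ≤ 1 / 4 := hηC
      have h5 : (1 : ℂ) = u z + Lo q z * g (Sum.inl none) z -
          (x.1.2.1 none (θ z) - h0 z) * g (Sum.inr (Sum.inl none)) z := by
        rw [hid z hz]
        ring
      have h6 : ‖(1 : ℂ)‖ ≤ ‖u z‖ + ‖Lo q z * g (Sum.inl none) z‖ +
          ‖(x.1.2.1 none (θ z) - h0 z) * g (Sum.inr (Sum.inl none)) z‖ := by
        calc ‖(1 : ℂ)‖ = ‖u z + Lo q z * g (Sum.inl none) z -
          (x.1.2.1 none (θ z) - h0 z) * g (Sum.inr (Sum.inl none)) z‖ := by rw [← h5]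
          _ ≤ _ := (norm_sub_le _ _).trans (by gcongr; exact norm_add_le _ _)
      rw [norm_one] at h6
      linarith
    have hne : ∀ z ∈ ball (0 : V m) 1 ∩ ball q (min (ρ q η) η), u z ≠ 0 := by
      intro z hz h1
      have := hlow z hz
      rw [h1, norm_zero] at this
      linarith
    refine ⟨fun o z => G' o z * (u z)⁻¹, fun o => ?_, fun o z hz => ?_, fun z hz => ?_⟩
    · exact ((hG'd o).mono inter_subset_left).fun_mul
        ((hud.mono inter_subset_left).fun_inv hne)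
    · rw [norm_mul, norm_inv]
      have h1 := hlow z hz
      have h2 : (‖u z‖)⁻¹ ≤ 2 := by
        rw [inv_le_comm₀ (by linarith) (by norm_num)]
        linarith
      have h3 := hG'b o z hz.1
      calc ‖G' o z‖ * (‖u z‖)⁻¹ ≤ C * 2 := by
            gcongr
        _ = 2 * C := mul_comm _ _
    · have h1 : ∑ o, Fam x o (θ z) * (G' o z * (u z)⁻¹) = u z * (u z)⁻¹ := by
        rw [hu]
        simp only []
        rw [Finset.sum_mul]
        refine Finset.sum_congr rfl fun o _ => ?_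
        ring
      have h2 : ∑ o, Fam x o (ψ x (mv p a z)) * (G' o z * (u z)⁻¹) = 1 := by
        have h3 : ψ x (mv p a z) = θ z := by rw [hθe]
        rw [h3, h1, mul_inv_cancel₀ (hne z hz)]
      exact h2

/-- adding one resolvable family -/
theorem Rs.good {ℱ : Set (V m → ℂ)} (h : Rs ℱ) : ∀ (κ : Type) [Fintype κ]
    (𝔇 : κ → Set (V m → ℂ)), (∀ k, AC (𝔇 k) ⊆ 𝔇 k) → (∀ k, ∀ D ∈ 𝔇 k, HB D) → Good 𝔇 →
    Good (fun o : Option κ => (o.elim ℱ 𝔇 : Set (V m → ℂ))) := by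
  induction h with
  | base ℱ h => exact fun κ _ 𝔇 _ _ hG => good_base hG h
  | whit ℱ p hp ρ hρ ℋ hℋ h ih =>
    exact fun κ _ 𝔇 hAC hDb hG => good_whit hAC hDb hp hρ
      (fun q hq hpq => ih q hq hpq κ 𝔇 hAC hDb hG) h

theorem Good.congr {κ κ' : Type} [Fintype κ] [Fintype κ'] (e : κ ≃ κ')
    {𝔇 : κ → Set (V m → ℂ)} {𝔇' : κ' → Set (V m → ℂ)} (he : ∀ k, 𝔇' (e k) ⊆ 𝔇 k)
    (h : Good 𝔇) : Good 𝔇' := by
  intro ι J _ _ ε Q hε hQ
  obtain ⟨C, hC, H⟩ := h ι J ε Q hε hQ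
  refine ⟨C, hC, fun A D G hA hD hG hB => ?_⟩
  obtain ⟨g, g1, g2, g3⟩ := H A (fun k => D (e k)) G hA (fun k => he k (hD _)) hG (by
    refine hB.mono ?_ le_rfl
    rintro z ⟨hz, h1, h2⟩
    refine ⟨hz, h1, fun k => ?_⟩
    have := h2 (e.symm k)
    rwa [e.apply_symm_apply] at this)
  refine ⟨Sum.elim (fun i => g (Sum.inl i)) (Sum.elim (fun k => g (Sum.inr (Sum.inl (e.symm k))))
    (fun j => g (Sum.inr (Sum.inr j)))), ?_, ?_, ?_⟩
  · rintro (i | k | j)
    · exact g1 _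
    · exact g1 _
    · exact g1 _
  · rintro (i | k | j)
    · exact g2 _
    · exact g2 _
    · exact g2 _
  · intro z hz
    rw [← g3 z hz]
    simp only [Fintype.sum_sum_type, Sum.elim_inl, Sum.elim_inr]
    congr 2
    rw [← Equiv.sum_comp e]
    refine Finset.sum_congr rfl fun k _ => ?_
    rw [e.symm_apply_apply]

theorem AC_AC (ℱ : Set (V m → ℂ)) : AC (AC ℱ) ⊆ AC ℱ := by
  rintro F ⟨F', hF', θ, θ', hθ, α, β, hab, h⟩
  exact AC_aff hF' hθ hab h

/-- **Localisation over finitely many resolvable families.** -/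
theorem good_all (κ : Type) [Fintype κ] : ∀ 𝔇 : κ → Set (V m → ℂ), (∀ k, Rs (𝔇 k)) →
    Good (fun k => AC (𝔇 k)) := by
  refine Fintype.induction_empty_option (P := fun κ _ => ∀ 𝔇 : κ → Set (V m → ℂ),
    (∀ k, Rs (𝔇 k)) → Good (fun k => AC (𝔇 k))) ?_ ?_ ?_ κ
  · intro α β _ e h 𝔇 hR
    letI : Fintype α := Fintype.ofEquiv β e.symm
    have h1 := h (fun k => 𝔇 (e k)) (fun k => hR _)
    exact Good.congr e (fun k => le_rfl) h1
  · intro 𝔇 _
    exact good_empty _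
  · intro α _ ih 𝔇 hR
    have h1 := ih (fun k => 𝔇 (some k)) (fun k => hR _)
    have h2 := (hR none).ac.good α (fun k => AC (𝔇 (some k))) (fun k => AC_AC _)
      (fun k => (hR (some k)).ac.hb) h1
    refine Good.congr (Equiv.refl _) ?_ h2
    rintro (_ | k)
    · exact le_rfl
    · exact le_rfl

end Pool.Agent.R223.Crn
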