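import Mathlib
import Pool.Agent.R223.Crn.Good
import Pool.Agent.R314.CorLoc

/-!
Functions on which the rotations about a complex line act norm-continuously are resolvable; the
corona theorem for tuples of scaled resolvable functions.
-/

set_option autoImplicit false
set_option linter.unusedSectionVars false

open Metric Set Filter Topology Complex

namespace Pool.Agent.R223.Crn

open Pool.Agent.TH310.Cor (HB Aut aut_mv)
open Pool.Agent.W732.Cor (V mv tau t_mv t_sc2)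
open Pool.Agent.Y263.LF (Bez Tup)
open Pool.Agent.Y263.GF (AF AD)

variable {m : ℕ}

/-- the rotation about the complex line through `0` and `p` -/
noncomputable def rot (p : V m) (θ : ℝ) (z : V m) : V m :=
  (inner ℂ p z : ℂ) • p + Complex.exp (θ * I) • (z - (inner ℂ p z : ℂ) • p)

noncomputable def gen (p z : V m) (ζ : ℂ) : V m :=
  (inner ℂ p z : ℂ) • p + Complex.exp (ζ * I) • (z - (inner ℂ p z : ℂ) • p)

theorem inner_perp {p : V m} (hp : ‖p‖ = 1) (z : V m) :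
    (inner ℂ p (z - (inner ℂ p z : ℂ) • p) : ℂ) = 0 := by
  rw [inner_sub_right, inner_smul_right, inner_self_eq_norm_sq_to_K, hp]
  simp

theorem gen_norm {p : V m} (hp : ‖p‖ = 1) (z : V m) {c : ℂ} (hc : ‖c‖ ≤ 1) :
    ‖(inner ℂ p z : ℂ) • p + c • (z - (inner ℂ p z : ℂ) • p)‖ ≤ ‖z‖ := by
  obtain ⟨x, hx⟩ : ∃ x : V m, x = (inner ℂ p z : ℂ) • p := ⟨_, rfl⟩
  obtain ⟨y, hy⟩ : ∃ y : V m, y = z - (inner ℂ p z : ℂ) • p := ⟨_, rfl⟩
  have hxy : (inner ℂ x y : ℂ) = 0 := by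
    rw [hx, inner_smul_left, hy, inner_perp hp, mul_zero]
  have hz : z = x + y := by rw [hx, hy]; abel
  have e0 : (inner ℂ p z : ℂ) • p + c • (z - (inner ℂ p z : ℂ) • p) = x + c • y := by
    rw [hy, hx]
  rw [e0]
  have h1 := norm_add_sq_eq_norm_sq_add_norm_sq_of_inner_eq_zero (𝕜 := ℂ) x y hxy
  have h2 := norm_add_sq_eq_norm_sq_add_norm_sq_of_inner_eq_zero (𝕜 := ℂ) x (c • y)
    (by rw [inner_smul_right, hxy, mul_zero])
  rw [← hz] at h1
  rw [norm_smul] at h2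
  have h3 : ‖c‖ * ‖y‖ ≤ ‖y‖ := mul_le_of_le_one_left (norm_nonneg _) hc
  have h4 : 0 ≤ ‖c‖ * ‖y‖ := by positivity
  have h5 : ‖x + c • y‖ ^ 2 ≤ ‖z‖ ^ 2 := by nlinarith
  exact le_of_sq_le_sq h5 (norm_nonneg _)

theorem gen_mem {p : V m} (hp : ‖p‖ = 1) {z : V m} (hz : z ∈ ball (0 : V m) 1) {ζ : ℂ}
    (hζ : 0 ≤ ζ.im) : gen p z ζ ∈ ball (0 : V m) 1 := by
  rw [mem_ball_zero_iff]
  refine (gen_norm hp z ?_).trans_lt (mem_ball_zero_iff.1 hz)
  rw [Complex.norm_exp]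
  have h1 : (ζ * I).re = -ζ.im := by simp
  rw [h1, Real.exp_le_one_iff]
  linarith

theorem inner_gen {p : V m} (hp : ‖p‖ = 1) (z : V m) (c : ℂ) :
    (inner ℂ p ((inner ℂ p z : ℂ) • p + c • (z - (inner ℂ p z : ℂ) • p)) : ℂ) = inner ℂ p z := by
  rw [inner_add_right, inner_smul_right, inner_smul_right, inner_perp hp,
    inner_self_eq_norm_sq_to_K, hp]
  simp

/-- norm-continuity of the rotations implies norm-continuity of the contractions `tau` -/
theorem tau_close {H : V m → ℂ} (hH : HB H) {p : V m} (hp : ‖p‖ = 1)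
    (hrot : ∀ ε : ℝ, 0 < ε → ∃ η : ℝ, 0 < η ∧ ∀ θ : ℝ, |θ| ≤ η → ∀ z ∈ ball (0 : V m) 1,
      ‖H (rot p θ z) - H z‖ ≤ ε) {ε : ℝ} (hε : 0 < ε) :
    ∃ t : ℝ, 0 ≤ t ∧ t < 1 ∧ ∀ z ∈ ball (0 : V m) 1, ‖H (tau p t z) - H z‖ ≤ ε := by
  obtain ⟨η, hη, hr⟩ := hrot (ε / 4) (by positivity)
  obtain ⟨τ, hτe⟩ : ∃ τ : ℝ, τ = ε * η / 2 := ⟨_, rfl⟩
  have hτ : 0 < τ := by rw [hτe]; positivity
  refine ⟨Real.exp (-τ), (Real.exp_pos _).le, by rw [Real.exp_lt_one_iff]; linarith, ?_⟩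
  intro z hz
  obtain ⟨S, hS⟩ : ∃ S : ℂ → ℂ, S = fun ζ => H (gen p z ζ) := ⟨_, rfl⟩
  have hSd : DifferentiableOn ℂ S {ζ : ℂ | 0 ≤ ζ.im} := by
    rw [hS]
    refine hH.1.comp ?_ (fun ζ hζ => gen_mem hp hz hζ)
    unfold gen
    have h1 : Differentiable ℂ (fun ζ : ℂ => (inner ℂ p z : ℂ) • p +
        Complex.exp (ζ * I) • (z - (inner ℂ p z : ℂ) • p)) := by
      refine (differentiable_const _).add (Differentiable.smul_const ?_ _)
      exact (differentiable_id.mul_const I).cexp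
    exact h1.differentiableOn
  have hSb : ∀ ζ : ℂ, 0 ≤ ζ.im → ‖S ζ‖ ≤ 1 := by
    intro ζ hζ
    rw [hS]
    exact hH.2 _ (gen_mem hp hz hζ)
  obtain ⟨z0, hz0⟩ : ∃ z0 : V m, z0 = tau p (Real.exp (-τ)) z := ⟨_, rfl⟩
  have hz0g : z0 = gen p z (τ * I) := by
    rw [hz0]
    unfold tau gen
    have h1 : (τ * I : ℂ) * I = ((-τ : ℝ) : ℂ) := by
      push_cast
      linear_combination (τ : ℂ) * Complex.I_mul_I
    rw [h1, ← Complex.ofReal_exp]
  have hz0b : z0 ∈ ball (0 : V m) 1 := by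
    rw [hz0g]
    exact gen_mem hp hz (by simp [hτ.le])
  have hS0 : S 0 = H z := by
    rw [hS]
    simp only [gen, zero_mul, Complex.exp_zero, one_smul]
    rw [add_sub_cancel]
  have hSτ : S (τ * I) = H z0 := by
    rw [hS, hz0g]
  have hSx : ∀ x : ℝ, |x| ≤ η → ‖S x - S 0‖ ≤ ε / 4 := by
    intro x hx
    have h1 := hr x hx z hz
    rw [hS0, hS]
    exact h1
  have hSx' : ∀ x : ℝ, |x| ≤ η → ‖S (x + τ * I) - S (τ * I)‖ ≤ ε / 4 := by
    intro x hx
    have h1 := hr x hx z0 hz0b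
    have h2 : rot p x z0 = gen p z (x + τ * I) := by
      rw [hz0g]
      unfold rot gen
      rw [inner_gen hp]
      have h3 : (x + τ * I : ℂ) * I = x * I + τ * I * I := by ring
      rw [h3, Complex.exp_add, add_sub_cancel_left, smul_smul]
    rw [hSτ]
    rw [h2] at h1
    rw [hS]
    exact h1
  -- Cauchy's theorem on a rectangle
  have hrect := Complex.integral_boundary_rect_eq_zero_of_differentiableOn S
    (((-η : ℝ) : ℂ)) ((η : ℂ) + τ * I) (hSd.mono (by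
      intro ζ hζ
      have h1 := hζ.2
      have h2 : (((-η : ℝ) : ℂ)).im = 0 := Complex.ofReal_im _
      have h3 : ((η : ℂ) + τ * I).im = τ := by simp
      rw [mem_preimage, h2, h3, uIcc_of_le hτ.le] at h1
      exact h1.1))
  have e1 : (((-η : ℝ) : ℂ)).re = -η := Complex.ofReal_re _
  have e2 : (((-η : ℝ) : ℂ)).im = 0 := Complex.ofReal_im _
  have e3 : ((η : ℂ) + τ * I).re = η := by simp
  have e4 : ((η : ℂ) + τ * I).im = τ := by simp
  rw [e1, e2, e3, e4] at hrect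
  have hc1 : ContinuousOn (fun x : ℝ => S x) univ := by
    refine hSd.continuousOn.comp Complex.continuous_ofReal.continuousOn (fun x _ => ?_)
    simp
  have hc2 : ContinuousOn (fun x : ℝ => S (x + τ * I)) univ := by
    refine hSd.continuousOn.comp (Continuous.continuousOn (by fun_prop)) (fun x _ => ?_)
    simp [hτ.le]
  have i1 : IntervalIntegrable (fun x : ℝ => S x) MeasureTheory.volume (-η) η :=
    (hc1.mono (subset_univ _)).intervalIntegrable
  have i2 : IntervalIntegrable (fun x : ℝ => S (x + τ * I)) MeasureTheory.volume (-η) η :=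
    (hc2.mono (subset_univ _)).intervalIntegrable
  have b1 : ‖(∫ x in (-η)..η, S x) - (2 * η : ℝ) * S 0‖ ≤ ε / 4 * (2 * η) := by
    have h1 : (∫ x in (-η)..η, S x) - (2 * η : ℝ) * S 0 = ∫ x in (-η)..η, (S x - S 0) := by
      rw [intervalIntegral.integral_sub i1 intervalIntegrable_const,
        intervalIntegral.integral_const]
      rw [Complex.real_smul]
      congr 3
      ring
    rw [h1]
    have h2 := intervalIntegral.norm_integral_le_of_norm_le_const (a := -η) (b := η)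
      (f := fun x : ℝ => S x - S 0) (C := ε / 4) (fun x hx => by
        rw [uIoc_of_le (by linarith)] at hx
        exact hSx x (abs_le.2 ⟨hx.1.le, hx.2⟩))
    rw [abs_of_nonneg (by linarith)] at h2
    linarith
  have b2 : ‖(∫ x in (-η)..η, S (x + τ * I)) - (2 * η : ℝ) * S (τ * I)‖ ≤ ε / 4 * (2 * η) := by
    have h1 : (∫ x in (-η)..η, S (x + τ * I)) - (2 * η : ℝ) * S (τ * I) =
        ∫ x in (-η)..η, (S (x + τ * I) - S (τ * I)) := by
      rw [intervalIntegral.integral_sub i2 intervalIntegrable_const,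
        intervalIntegral.integral_const]
      rw [Complex.real_smul]
      congr 3
      ring
    rw [h1]
    have h2 := intervalIntegral.norm_integral_le_of_norm_le_const (a := -η) (b := η)
      (f := fun x : ℝ => S (x + τ * I) - S (τ * I)) (C := ε / 4) (fun x hx => by
        rw [uIoc_of_le (by linarith)] at hx
        exact hSx' x (abs_le.2 ⟨hx.1.le, hx.2⟩))
    rw [abs_of_nonneg (by linarith)] at h2
    linarith
  have b3 : ‖∫ y in (0 : ℝ)..τ, S (((η : ℝ) : ℂ) + y * I)‖ ≤ τ := by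
    have h2 := intervalIntegral.norm_integral_le_of_norm_le_const (a := (0 : ℝ)) (b := τ)
      (f := fun y : ℝ => S (((η : ℝ) : ℂ) + y * I)) (C := 1) (fun y hy => by
        rw [uIoc_of_le hτ.le] at hy
        exact hSb _ (by simp [hy.1.le]))
    rw [abs_of_nonneg (by linarith)] at h2
    linarith
  have b4 : ‖∫ y in (0 : ℝ)..τ, S (((-η : ℝ) : ℂ) + y * I)‖ ≤ τ := by
    have h2 := intervalIntegral.norm_integral_le_of_norm_le_const (a := (0 : ℝ)) (b := τ)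
      (f := fun y : ℝ => S (((-η : ℝ) : ℂ) + y * I)) (C := 1) (fun y hy => by
        rw [uIoc_of_le hτ.le] at hy
        exact hSb _ (by simp [hy.1.le]))
    rw [abs_of_nonneg (by linarith)] at h2
    linarith
  have h0 : (∫ x in (-η)..η, S (x + ((0 : ℝ) : ℂ) * I)) = ∫ x in (-η)..η, S x := by
    refine intervalIntegral.integral_congr fun x _ => ?_
    simp
  rw [h0] at hrect
  obtain ⟨A, hA⟩ : ∃ A : ℂ, A = ∫ x in (-η)..η, S x := ⟨_, rfl⟩
  obtain ⟨B, hB⟩ : ∃ B : ℂ, B = ∫ x in (-η)..η, S (x + τ * I) := ⟨_, rfl⟩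
  obtain ⟨X, hX⟩ : ∃ X : ℂ, X = ∫ y in (0 : ℝ)..τ, S (((η : ℝ) : ℂ) + y * I) := ⟨_, rfl⟩
  obtain ⟨Y, hY⟩ : ∃ Y : ℂ, Y = ∫ y in (0 : ℝ)..τ, S (((-η : ℝ) : ℂ) + y * I) := ⟨_, rfl⟩
  rw [← hA] at b1 hrect
  rw [← hB] at b2 hrect
  rw [← hX] at b3 hrect
  rw [← hY] at b4 hrect
  simp only [smul_eq_mul] at hrect
  have key : ((2 * η : ℝ) : ℂ) * (S (τ * I) - S 0) =
      (A - (2 * η : ℝ) * S 0) - (B - (2 * η : ℝ) * S (τ * I)) + I * X - I * Y := by
    linear_combination -hrect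
  have h5 : 2 * η * ‖S (τ * I) - S 0‖ ≤ ε / 4 * (2 * η) + ε / 4 * (2 * η) + τ + τ := by
    have h6 : ‖((2 * η : ℝ) : ℂ) * (S (τ * I) - S 0)‖ = 2 * η * ‖S (τ * I) - S 0‖ := by
      rw [norm_mul, Complex.norm_real, Real.norm_of_nonneg (by positivity)]
    rw [← h6, key]
    have n1 : ‖I * X‖ ≤ τ := by rw [norm_mul, Complex.norm_I, one_mul]; exact b3
    have n2 : ‖I * Y‖ ≤ τ := by rw [norm_mul, Complex.norm_I, one_mul]; exact b4
    refine (norm_sub_le _ _).trans ?_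
    have n3 := norm_add_le ((A - (2 * η : ℝ) * S 0) - (B - (2 * η : ℝ) * S (τ * I))) (I * X)
    have n4 := norm_sub_le (A - (2 * η : ℝ) * S 0) (B - (2 * η : ℝ) * S (τ * I))
    linarith
  rw [← hz0, ← hSτ, ← hS0]
  have h6 : 2 * η * ‖S (τ * I) - S 0‖ ≤ 2 * η * ε := by
    refine h5.trans ?_
    rw [hτe]
    nlinarith
  exact le_of_mul_le_mul_left h6 (by positivity)

/-- scaled resolvable functions -/
def W (F : V m → ℂ) : Prop :=
  ∃ (c : ℂ) (ℱ : Set (V m → ℂ)), Rs ℱ ∧ ∃ F' ∈ ℱ, ∀ z ∈ ball (0 : V m) 1, F z = c * F' z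

theorem scale {F : V m → ℂ} (hd : DifferentiableOn ℂ F (ball 0 1))
    (hb : ∃ C : ℝ, ∀ z ∈ ball (0 : V m) 1, ‖F z‖ ≤ C) :
    ∃ c : ℂ, c ≠ 0 ∧ HB (fun z => F z / c) := by
  obtain ⟨C, hC⟩ := hb
  have h1 : (0 : ℝ) < |C| + 1 := by positivity
  refine ⟨((|C| + 1 : ℝ) : ℂ), by exact_mod_cast h1.ne', ?_, fun z hz => ?_⟩
  · have h2 : DifferentiableOn ℂ (fun z => F z * (((|C| + 1 : ℝ) : ℂ))⁻¹) (ball (0 : V m) 1) :=
      hd.mul_const _
    simp only [div_eq_mul_inv]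
    exact h2
  · rw [norm_div, Complex.norm_real, Real.norm_of_nonneg h1.le, div_le_one h1]
    exact (hC z hz).trans ((le_abs_self C).trans (by linarith))

theorem rot_W {F : V m → ℂ} (hd : DifferentiableOn ℂ F (ball 0 1))
    (hb : ∃ C : ℝ, ∀ z ∈ ball (0 : V m) 1, ‖F z‖ ≤ C) {ψ φ : V m → V m} (hψ : Aut ψ φ)
    {p : V m} (hp : ‖p‖ = 1)
    (hrot : ∀ ε : ℝ, 0 < ε → ∃ η : ℝ, 0 < η ∧ ∀ θ : ℝ, |θ| ≤ η → ∀ z ∈ ball (0 : V m) 1,
      ‖F (ψ (rot p θ z)) - F (ψ z)‖ ≤ ε) : W F := by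
  classical
  obtain ⟨c, hc, hF'⟩ := scale hd hb
  have hcn : 0 < ‖c‖ := norm_pos_iff.2 hc
  obtain ⟨F', hF'e⟩ : ∃ F' : V m → ℂ, F' = fun z => F z / c := ⟨_, rfl⟩
  rw [← hF'e] at hF'
  obtain ⟨H, hH⟩ : ∃ H : V m → ℂ, H = fun z => F' (ψ z) := ⟨_, rfl⟩
  have hHB : HB H := by rw [hH]; exact hF'.comp hψ
  have hHrot : ∀ ε : ℝ, 0 < ε → ∃ η : ℝ, 0 < η ∧ ∀ θ : ℝ, |θ| ≤ η → ∀ z ∈ ball (0 : V m) 1,
      ‖H (rot p θ z) - H z‖ ≤ ε := by
    intro ε hε
    obtain ⟨η, hη, h1⟩ := hrot (ε * ‖c‖) (by positivity)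
    refine ⟨η, hη, fun θ hθ z hz => ?_⟩
    have h2 := h1 θ hθ z hz
    rw [hH, hF'e]
    simp only []
    rw [← sub_div, norm_div, div_le_iff₀ hcn]
    exact h2
  have hE : ∀ (q : V m) (ε : ℝ), ‖q‖ = 1 → (inner ℂ p q : ℂ) = 0 → 0 < ε → ∃ r : ℝ, 0 < r ∧
      ∀ a ∈ ball (0 : ℂ) 1, ∀ z ∈ ball (0 : V m) 1, ∀ w ∈ ball (0 : V m) 1,
      ‖z - q‖ < r → ‖w - q‖ < r → ‖H (mv p a z) - H (mv p a w)‖ ≤ ε := by
    intro q ε hq hpq hε
    obtain ⟨t, ht0, ht1, ht⟩ := tau_close hHB hp hHrot (ε := ε / 3) (by positivity)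
    obtain ⟨r, hr, h1⟩ := t_sc2 m p hp t ht0 ht1 (ε / 3) (by positivity)
    refine ⟨r, hr, fun a ha z hz w hw hzq hwq => ?_⟩
    have h2 := h1 H hHB.1 hHB.2 q hq hpq a ha z hz w hw hzq hwq
    have hA := aut_mv t_mv hp ha
    have h3 := ht _ (hA.m1 hz)
    have h4 := ht _ (hA.m1 hw)
    have h5 : H (mv p a z) - H (mv p a w) =
        (H (tau p t (mv p a z)) - H (tau p t (mv p a w))) -
        (H (tau p t (mv p a z)) - H (mv p a z)) +
        (H (tau p t (mv p a w)) - H (mv p a w)) := by ring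
    rw [h5]
    have h6 := norm_add_le ((H (tau p t (mv p a z)) - H (tau p t (mv p a w))) -
        (H (tau p t (mv p a z)) - H (mv p a z))) (H (tau p t (mv p a w)) - H (mv p a w))
    have h7 := norm_sub_le (H (tau p t (mv p a z)) - H (tau p t (mv p a w)))
      (H (tau p t (mv p a z)) - H (mv p a z))
    linarith
  have hE' : ∀ (q : V m) (ε : ℝ), ∃ r : ℝ, (0 < ε → 0 < r) ∧ (‖q‖ = 1 →
      (inner ℂ p q : ℂ) = 0 → 0 < ε →
      ∀ a ∈ ball (0 : ℂ) 1, ∀ z ∈ ball (0 : V m) 1, ∀ w ∈ ball (0 : V m) 1,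
      ‖z - q‖ < r → ‖w - q‖ < r → ‖H (mv p a z) - H (mv p a w)‖ ≤ ε) := by
    intro q ε
    by_cases h : ‖q‖ = 1 ∧ (inner ℂ p q : ℂ) = 0 ∧ 0 < ε
    · obtain ⟨r, hr, h1⟩ := hE q ε h.1 h.2.1 h.2.2
      exact ⟨r, fun _ => hr, fun _ _ _ => h1⟩
    · exact ⟨1, fun _ => one_pos, fun h1 h2 h3 => absurd ⟨h1, h2, h3⟩ h⟩
  choose ρ hρ hρ2 using hE'
  refine ⟨c, {F'}, Rs.whit _ p hp ρ hρ (fun _ => {h | ∃ d : ℂ, ‖d‖ ≤ 1 ∧ h = fun _ => d})
    (fun q _ _ => Rs.base _ ?_) ?_, F', rfl, fun z hz => ?_⟩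
  · rintro h ⟨d, hd, rfl⟩
    exact R1_const hd
  · intro G hGF
    rw [mem_singleton_iff] at hGF
    rw [hGF]
    refine ⟨hF', ψ, φ, hψ, fun q hq hpq a ha => ?_⟩
    have hA := aut_mv t_mv hp ha
    have hbd : ∀ z ∈ ball (0 : V m) 1, H (mv p a z) ∈ closedBall (0 : ℂ) 1 := by
      intro z hz
      rw [mem_closedBall_zero_iff]
      exact hHB.2 _ (hA.m1 hz)
    obtain ⟨w, hw⟩ : ∃ w : ℕ → V m, w = fun n : ℕ => ((1 - 1 / ((n : ℝ) + 2) : ℝ) : ℂ) • q := ⟨_, rfl⟩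
    have hwn : ∀ n : ℕ, (0 : ℝ) < 1 / ((n : ℝ) + 2) ∧ 1 / ((n : ℝ) + 2) < 1 := by
      intro n
      have h0 : (0 : ℝ) ≤ n := Nat.cast_nonneg n
      refine ⟨by positivity, ?_⟩
      rw [div_lt_one (by positivity)]
      linarith
    have hwb : ∀ n, w n ∈ ball (0 : V m) 1 := by
      intro n
      have := hwn n
      rw [hw, mem_ball_zero_iff]
      simp only []
      rw [norm_smul, hq, Complex.norm_real, Real.norm_of_nonneg (by linarith)]
      linarith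
    have hwq : ∀ n, ‖w n - q‖ = 1 / ((n : ℝ) + 2) := by
      intro n
      have := hwn n
      have h1 : w n - q = ((-(1 / ((n : ℝ) + 2)) : ℝ) : ℂ) • q := by
        rw [hw]
        push_cast
        module
      rw [h1, norm_smul, hq, Complex.norm_real, norm_neg, Real.norm_of_nonneg this.1.le, mul_one]
    obtain ⟨d, hd, k, hk, hlim⟩ := (isCompact_closedBall (0 : ℂ) 1).tendsto_subseq
      (fun n => hbd _ (hwb n))
    refine ⟨fun _ => d, ⟨d, mem_closedBall_zero_iff.1 hd, rfl⟩, fun ε hε z hz hzq => ?_⟩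
    have h1 : Tendsto (fun n => ‖H (mv p a z) - H (mv p a (w (k n)))‖) atTop
        (𝓝 ‖H (mv p a z) - d‖) := (tendsto_const_nhds.sub hlim).norm
    have h2 : Tendsto (fun n : ℕ => 1 / ((k n : ℝ) + 2)) atTop (𝓝 0) := by
      have h3 : Tendsto (fun n : ℕ => 1 / ((n : ℝ) + 2)) atTop (𝓝 0) := by
        refine squeeze_zero (fun n => (hwn n).1.le) (fun n => ?_)
          tendsto_one_div_add_atTop_nhds_zero_nat
        have h0 : (0 : ℝ) ≤ n := Nat.cast_nonneg n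
        refine one_div_le_one_div_of_le (by positivity) (by linarith)
      exact h3.comp hk.tendsto_atTop
    have h3 : ∀ᶠ n in atTop, ‖H (mv p a z) - H (mv p a (w (k n)))‖ ≤ ε := by
      filter_upwards [h2.eventually (gt_mem_nhds (hρ q ε hε))] with n hn
      refine hρ2 q ε hq hpq hε a ha z hz _ (hwb _) hzq ?_
      rw [hwq]
      exact hn
    have h4 := le_of_tendsto h1 h3
    have h5 : F' (ψ (mv p a z)) = H (mv p a z) := by rw [hH]
    rw [h5]
    exact h4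
  · rw [hF'e]
    simp only []
    field_simp

theorem R_W {F : V m → ℂ} {f : ℂ → ℂ} {ψ : V m → ℂ} (hf : DifferentiableOn ℂ f (ball 0 1))
    (hfb : ∃ C : ℝ, ∀ w ∈ ball (0 : ℂ) 1, ‖f w‖ ≤ C) (hψ : AD ψ)
    (hF : ∀ z ∈ ball (0 : V m) 1, F z = f (ψ z)) : W F := by
  obtain ⟨C, hC⟩ := hfb
  have h1 : (0 : ℝ) < |C| + 1 := by positivity
  have h1c : ((|C| + 1 : ℝ) : ℂ) ≠ 0 := by exact_mod_cast h1.ne'
  refine ⟨((|C| + 1 : ℝ) : ℂ), {fun z => f (ψ z) / ((|C| + 1 : ℝ) : ℂ)}, Rs.base _ ?_, _, rfl,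
    fun z hz => ?_⟩
  · rintro G rfl
    refine ⟨fun w => f w / ((|C| + 1 : ℝ) : ℂ), ψ, ?_, fun w hw => ?_, hψ, fun z _ => rfl⟩
    · have h2 : DifferentiableOn ℂ (fun w => f w * (((|C| + 1 : ℝ) : ℂ))⁻¹) (ball (0 : ℂ) 1) :=
        hf.mul_const _
      simp only [div_eq_mul_inv]
      exact h2
    · rw [norm_div, Complex.norm_real, Real.norm_of_nonneg h1.le, div_le_one h1]
      exact (hC w hw).trans ((le_abs_self C).trans (by linarith))
  · rw [hF z hz]
    field_simp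

theorem W.bh {F : V m → ℂ} (h : W F) : Pool.Agent.R314.CorLoc.Bh F := by
  obtain ⟨c, ℱ, hR, F', hF', hF⟩ := h
  have h1 := hR.hb F' hF'
  refine ⟨?_, ‖c‖, fun z hz => ?_⟩
  · exact (h1.1.const_mul c).congr hF
  · rw [hF z hz, norm_mul]
    have := h1.2 z hz
    calc ‖c‖ * ‖F' z‖ ≤ ‖c‖ * 1 := by gcongr
      _ = ‖c‖ := mul_one _

/-- the corona theorem for tuples of functions of `W` and one arbitrary function -/
theorem tup_W : Tup {F : V m → ℂ | W F} := by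
  classical
  intro K h hh c G hG hGb δ hδ hlow
  choose s ℱ hR F' hF' hF using hh
  obtain ⟨CG, hCG⟩ := hGb
  obtain ⟨B, hBe⟩ : ∃ B : Fin K → ℝ, B = fun k => ‖s k‖ + ‖c k‖ + 1 := ⟨_, rfl⟩
  have hB : ∀ k, 0 < B k := fun k => by rw [hBe]; positivity
  have hBc : ∀ k, ((B k : ℝ) : ℂ) ≠ 0 := fun k => by exact_mod_cast (hB k).ne'
  obtain ⟨b, hbe⟩ : ∃ b : ℝ, b = |CG| + 1 := ⟨_, rfl⟩
  have hb : 0 < b := by rw [hbe]; positivity
  have hbc : (b : ℂ) ≠ 0 := by exact_mod_cast hb.ne'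
  obtain ⟨S, hSe⟩ : ∃ S : ℝ, S = ∑ k, B k + 1 := ⟨_, rfl⟩
  have hS : 0 < S := by
    rw [hSe]
    have : 0 ≤ ∑ k, B k := Finset.sum_nonneg fun k _ => (hB k).le
    linarith
  obtain ⟨ε, hεe⟩ : ∃ ε : ℝ, ε = δ / (2 * S) := ⟨_, rfl⟩
  have hε : 0 < ε := by rw [hεe]; positivity
  obtain ⟨C, hC, H⟩ := good_all (Fin K) ℱ hR Empty Unit ε (2 * b / δ) hε (by positivity)
  have hDG : DifferentiableOn ℂ (fun z => G z / (b : ℂ)) (ball (0 : V m) 1) := by
    simp only [div_eq_mul_inv]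
    exact hG.mul_const _
  have hlowG : ∀ z ∈ ball (0 : V m) 1, (∀ k, ‖(h k z - c k) / (B k : ℂ)‖ < ε) →
      δ / 2 ≤ ‖G z‖ := by
    intro z hz h1
    have h2 := hlow z hz
    have h3 : ∑ j, ‖h j z - c j‖ ≤ ∑ j, ε * B j := by
      refine Finset.sum_le_sum fun j _ => ?_
      have h4 := h1 j
      rw [norm_div, Complex.norm_real, Real.norm_of_nonneg (hB j).le, div_lt_iff₀ (hB j)] at h4
      exact h4.le
    rw [← Finset.mul_sum] at h3
    have h5 : ε * ∑ j, B j ≤ ε * S := by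
      have : ∑ j, B j ≤ S := by rw [hSe]; linarith
      gcongr
    have h6 : ε * S = δ / 2 := by rw [hεe]; field_simp
    linarith
  obtain ⟨g, g1, g2, g3⟩ := H (fun e => nomatch e) (fun k z => (h k z - c k) / (B k : ℂ))
    (fun _ z => G z / (b : ℂ)) (fun e => nomatch e)
    (fun k => by
      refine ⟨F' k, hF' k, fun z => z, fun z => z, Aut.id, s k / (B k : ℂ), -(c k) / (B k : ℂ),
        ?_, fun z hz => ?_⟩
      · rw [norm_div, norm_div, norm_neg, Complex.norm_real, Real.norm_of_nonneg (hB k).le,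
          ← add_div, div_le_one (hB k), hBe]
        simp only []
        linarith
      · change (h k z - c k) / (B k : ℂ) = s k / (B k : ℂ) * F' k z + -(c k) / (B k : ℂ)
        rw [hF k z hz]
        have := hBc k
        field_simp
        ring)
    (fun _ => ⟨hDG, fun z hz => by
      rw [norm_div, Complex.norm_real, Real.norm_of_nonneg hb.le, div_le_one hb, hbe]
      exact (hCG z hz).trans ((le_abs_self CG).trans (by linarith))⟩)
    (by
      refine ⟨fun _ z => (G z / (b : ℂ))⁻¹, fun _ => ?_, fun _ z hz => ?_, fun z hz => ?_⟩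
      · refine (hDG.mono fun z hz => hz.1).fun_inv fun z hz h0 => ?_
        have h1 := hlowG z hz.1 hz.2.2
        rw [div_eq_zero_iff] at h0
        rcases h0 with h0 | h0
        · rw [h0, norm_zero] at h1
          linarith
        · exact hbc h0
      · have h1 := hlowG z hz.1 hz.2.2
        rw [norm_inv, norm_div, Complex.norm_real, Real.norm_of_nonneg hb.le, inv_div,
          div_le_div_iff₀ (by linarith) hδ]
        nlinarith
      · have h1 := hlowG z hz.1 hz.2.2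
        have h2 : G z ≠ 0 := by
          intro h0
          rw [h0, norm_zero] at h1
          linarith
        rw [Fintype.sum_unique]
        exact mul_inv_cancel₀ (div_ne_zero h2 hbc))
  refine ⟨fun k z => g (Sum.inr (Sum.inl k)) z / (B k : ℂ), fun z => g (Sum.inr (Sum.inr ())) z / (b : ℂ),
    ∑ k, C / B k + C / b, fun k => ?_, ?_, fun k z hz => ?_, fun z hz => ?_, fun z hz => ?_⟩
  · simp only [div_eq_mul_inv]
    exact (g1 _).mul_const _
  · simp only [div_eq_mul_inv]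
    exact (g1 _).mul_const _
  · rw [norm_div, Complex.norm_real, Real.norm_of_nonneg (hB k).le]
    have h1 := g2 (Sum.inr (Sum.inl k)) z hz
    have h2 : ‖g (Sum.inr (Sum.inl k)) z‖ / B k ≤ C / B k := by
      have := hB k
      gcongr
    have h3 : C / B k ≤ ∑ k, C / B k :=
      Finset.single_le_sum (f := fun k => C / B k) (fun k _ => div_nonneg hC (hB k).le)
        (Finset.mem_univ k)
    have h4 : 0 ≤ C / b := by positivity
    linarith
  · rw [norm_div, Complex.norm_real, Real.norm_of_nonneg hb.le]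
    have h1 := g2 (Sum.inr (Sum.inr ())) z hz
    have h2 : ‖g (Sum.inr (Sum.inr ())) z‖ / b ≤ C / b := by gcongr
    have h3 : 0 ≤ ∑ k, C / B k := Finset.sum_nonneg fun k _ => div_nonneg hC (hB k).le
    linarith
  · rw [← g3 z hz]
    simp only [Fintype.sum_sum_type, Sum.elim_inl, Sum.elim_inr, Finset.univ_eq_empty,
      Finset.sum_empty, zero_add, Fintype.sum_unique]
    congr 1
    · refine Finset.sum_congr rfl fun k _ => ?_
      ring
    · simp only [PUnit.default_eq_unit]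
      ring

end Pool.Agent.R223.Crn
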